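import Pool.Agent.W670.ML.Defs

set_option autoImplicit false

namespace Pool.Agent.W381.ML

open Pool.Agent.W670.ML

noncomputable section

variable {k K Ω : Type} [Field k] [Field K] [Field Ω] [Algebra k K] [Algebra K Ω] [Algebra k Ω]
  [IsScalarTower k K Ω] {L : IntermediateField K Ω}

/-- restriction of scalars -/
def rs (ψ : ↥L →ₐ[K] Ω) : ↥(L.restrictScalars k) →ₐ[k] Ω where
  toFun x := ψ ⟨x.1, x.2⟩
  map_one' := map_one ψ
  map_zero' := map_zero ψ
  map_mul' x y := map_mul ψ (⟨x.1, x.2⟩ : ↥L) (⟨y.1, y.2⟩ : ↥L)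
  map_add' x y := map_add ψ (⟨x.1, x.2⟩ : ↥L) (⟨y.1, y.2⟩ : ↥L)
  commutes' r := by
    have h1 := ψ.commutes (algebraMap k K r)
    rw [← IsScalarTower.algebraMap_apply k K Ω] at h1
    have h2 : (algebraMap K ↥L (algebraMap k K r)) =
        (⟨(algebraMap k ↥(L.restrictScalars k) r : ↥(L.restrictScalars k)).1,
          (algebraMap k ↥(L.restrictScalars k) r : ↥(L.restrictScalars k)).2⟩ : ↥L) := by
      apply Subtype.ext
      show algebraMap K Ω (algebraMap k K r) = algebraMap k Ω r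
      rw [← IsScalarTower.algebraMap_apply k K Ω]
    rw [h2] at h1
    exact h1

theorem rs_apply (ψ : ↥L →ₐ[K] Ω) (x : ↥(L.restrictScalars k)) :
    rs ψ x = ψ (⟨x.1, x.2⟩ : ↥L) := rfl

theorem ic_gen [hnorm : Normal k Ω] (h1 : S_IA) (h2 : S_IB) (n N m : ℕ)
    (G : Subgroup (Equiv.Perm (Fin n))) (H : Subgroup (Equiv.Perm (Fin N)))
    (L : IntermediateField K Ω) (hG : HasGroup K Ω n G L)
    (hH : HasGroup k Ω N H (L.restrictScalars k)) (hmn : m ≤ n)
    (hmG : ∀ g ∈ G, g ≠ 1 → m ≤ ind g) (h : Equiv.Perm (Fin N)) (hh : h ∈ H) (hne : h ≠ 1) :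
    m ≤ ind h := by
  classical
  obtain ⟨-, eG, heG⟩ := hG
  obtain ⟨-, eH, heH⟩ := hH
  obtain ⟨σ, hσ⟩ := (heH h).1 hh
  -- an embedding which is moved
  obtain ⟨x, hx⟩ : ∃ x, h x ≠ x := by
    by_contra hc
    push Not at hc
    exact hne (Equiv.ext hc)
  set φ0 := eH.symm x with hφ0
  have hmoved : σ.toAlgHom.comp φ0 ≠ φ0 := by
    intro hc
    apply hx
    have h3 := hσ φ0
    rw [hc, hφ0, Equiv.apply_symm_apply] at h3
    exact h3
  -- extension to `Ω`
  have halg : Algebra.IsAlgebraic k Ω := hnorm.toIsAlgebraic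
  let ρ0 : Ω →ₐ[k] Ω := φ0.liftNormal Ω
  have hρ0 : ∀ y : ↥(L.restrictScalars k), ρ0 (y : Ω) = φ0 y := by
    intro y
    exact φ0.liftNormal_commutes Ω y
  let ρ : Ω ≃ₐ[k] Ω := AlgEquiv.ofBijective ρ0 (Algebra.IsAlgebraic.algHom_bijective ρ0)
  have hρ : ∀ y : ↥(L.restrictScalars k), ρ (y : Ω) = φ0 y := hρ0
  have hKL : ∀ c : K, algebraMap K Ω c ∈ L := fun c => L.algebraMap_mem c
  let f : Fin n → Fin N := fun a => eH (ρ.toAlgHom.comp (rs (eG.symm a)))
  have hf : Function.Injective f := by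
    intro a b hab
    have h3 := eH.injective hab
    apply eG.symm.injective
    apply AlgHom.ext
    intro y
    have h4 := DFunLike.congr_fun h3 (⟨y.1, y.2⟩ : ↥(L.restrictScalars k))
    exact ρ.injective h4
  have hhf : ∀ a, h (f a) = eH (σ.toAlgHom.comp (ρ.toAlgHom.comp (rs (eG.symm a)))) := fun a =>
    hσ _
  by_cases hK : ∀ c : K, σ (ρ (algebraMap K Ω c)) = ρ (algebraMap K Ω c)
  · -- Case B
    let σ' : Ω ≃ₐ[K] Ω := AlgEquiv.ofRingEquiv (f := ((ρ.trans σ).trans ρ.symm).toRingEquiv) (by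
      intro c
      show ρ.symm (σ (ρ (algebraMap K Ω c))) = algebraMap K Ω c
      rw [hK c, AlgEquiv.symm_apply_apply])
    have hσ' : ∀ w : Ω, σ' w = ρ.symm (σ (ρ w)) := fun w => rfl
    let g : Equiv.Perm (Fin n) := (eG.symm.trans (AlgEquiv.arrowCongr AlgEquiv.refl σ')).trans eG
    have hg : ∀ φ : ↥L →ₐ[K] Ω, g (eG φ) = eG (σ'.toAlgHom.comp φ) := by
      intro φ
      show eG (AlgEquiv.arrowCongr AlgEquiv.refl σ' (eG.symm (eG φ))) = _
      rw [Equiv.symm_apply_apply]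
      congr 1
    have hgG : g ∈ G := (heG g).2 ⟨σ', hg⟩
    have hg1 : g ≠ 1 := by
      intro hc
      apply hmoved
      apply AlgHom.ext
      intro y
      have h3 := hg L.val
      rw [hc, Equiv.Perm.one_apply] at h3
      have h4 := eG.injective h3
      have h5 := DFunLike.congr_fun h4 (⟨y.1, y.2⟩ : ↥L)
      have h6 : (y : Ω) = ρ.symm (σ (ρ (y : Ω))) := h5
      have h7 := congrArg ρ h6
      rw [AlgEquiv.apply_symm_apply, hρ y] at h7
      exact h7.symm
    refine (hmG g hgG hg1).trans (h2 n N f hf g h ?_)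
    intro a
    rw [hhf]
    show _ = eH (ρ.toAlgHom.comp (rs (eG.symm (g a))))
    congr 1
    have h3 : eG.symm (g a) = σ'.toAlgHom.comp (eG.symm a) := by
      have h4 := hg (eG.symm a)
      rw [Equiv.apply_symm_apply] at h4
      rw [h4, Equiv.symm_apply_apply]
    rw [h3]
    apply AlgHom.ext
    intro y
    show σ (ρ (rs (eG.symm a) y)) = ρ (σ' (rs (eG.symm a) y))
    rw [hσ', AlgEquiv.apply_symm_apply]
  · -- Case A
    push Not at hK
    obtain ⟨c0, hk⟩ := hK
    have hcard : (Finset.univ.image f).card = n := by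
      rw [Finset.card_image_of_injective _ hf, Finset.card_univ, Fintype.card_fin]
    have h3 := h1 N h (Finset.univ.image f) (by
      intro y hy hc
      rw [Finset.mem_image] at hy hc
      obtain ⟨a, -, rfl⟩ := hy
      obtain ⟨b, -, hb⟩ := hc
      rw [hhf] at hb
      have h4 := eH.injective hb
      have h5 := DFunLike.congr_fun h4 (⟨algebraMap K Ω c0, hKL c0⟩ : ↥(L.restrictScalars k))
      have h6 : ∀ c : Fin n, rs (eG.symm c) (⟨algebraMap K Ω c0, hKL c0⟩ : ↥(L.restrictScalars k)) =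
          algebraMap K Ω c0 := fun c => (eG.symm c).commutes c0
      have h7 : ρ (rs (eG.symm b) (⟨algebraMap K Ω c0, hKL c0⟩ : ↥(L.restrictScalars k))) =
          σ (ρ (rs (eG.symm a) (⟨algebraMap K Ω c0, hKL c0⟩ : ↥(L.restrictScalars k)))) := h5
      rw [h6, h6] at h7
      exact hk h7.symm)
    rw [hcard] at h3
    exact hmn.trans h3

theorem ic (h1 : S_IA) (h2 : S_IB) : S_IC := by
  intro K Ω _ _ _ _ _ _ _ _ n N m G H L hG hH hmn hmG h hh hne
  have hnorm : Normal ℚ Ω := IsAlgClosure.normal ℚ Ω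
  exact ic_gen (k := ℚ) h1 h2 n N m G H L hG hH hmn hmG h hh hne

end

end Pool.Agent.W381.ML
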